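import Mathlib

set_option autoImplicit false

namespace Pool.Agent.MP_5514a7_co

open Finset

/-- The pattern `p` (a permutation of `{0,…,l-1}`, i.e. `p_1 ⋯ p_l` written with letters
`0,…,l-1`) occurs in the word `w = w_0 ⋯ w_{m-1}` at the (zero-based) index `j`: the factor
`w_j ⋯ w_{j+l-1}` exists and is order-isomorphic to `p`. -/
def OccursAt {l m n : ℕ} (p : Equiv.Perm (Fin l)) (w : Fin m → Fin n) (j : ℕ) : Prop :=
  ∃ h : j + l ≤ m, ∀ a b : Fin l,
    (w ⟨j + a, lt_of_lt_of_le (Nat.add_lt_add_left a.isLt j) h⟩ <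
      w ⟨j + b, lt_of_lt_of_le (Nat.add_lt_add_left b.isLt j) h⟩ ↔ p a < p b)

/-- The number of occurrences of the pattern `p` in the word `w`. -/
noncomputable def occ {l m n : ℕ} (p : Equiv.Perm (Fin l)) (w : Fin m → Fin n) : ℕ :=
  Set.ncard {j : ℕ | OccursAt p w j}

/-- `M(k_1,…,k_n)^*(p;s)`: the words of length `k_1 + ⋯ + k_n` over the letters `Fin n` in which
the letter `i` appears exactly `k i` times, with exactly `s` occurrences of `p`. -/
def wordsWith {l n : ℕ} (p : Equiv.Perm (Fin l)) (k : Fin n → ℕ) (s : ℕ) :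
    Set (Fin (∑ i, k i) → Fin n) :=
  {w | (∀ i : Fin n, Set.ncard {t | w t = i} = k i) ∧ occ p w = s}

/-- The pattern `p` is stable: for every number `n` of letters, all multiplicities `k`, every
permutation `σ` of the letters and every `s`, the numbers of words with exactly `s` occurrences
of `p` agree for the multiplicities `k` and `k ∘ σ`. -/
def Stable {l : ℕ} (p : Equiv.Perm (Fin l)) : Prop :=
  ∀ (n : ℕ) (k : Fin n → ℕ) (σ : Equiv.Perm (Fin n)) (s : ℕ),
    (wordsWith p k s).ncard = (wordsWith p (fun i => k (σ i)) s).ncard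

/-- The pattern `13245` (in zero-based letters: `0 2 1 3 4`). -/
def p13245 : Equiv.Perm (Fin 5) := Equiv.swap 1 2

end Pool.Agent.MP_5514a7_co
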