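import Mathlib
import Pool.Agent.Lib.MP_5514a7_co.Defs

set_option autoImplicit false
set_option linter.unusedSimpArgs false

namespace Pool.Agent.MP_5514a7_co

open Finset

/-! ### The word as a function on `ℕ` -/

/-- Letters of the word as natural numbers, extended by `0`. -/
def W {m n : ℕ} (w : Fin m → Fin n) (t : ℕ) : ℕ := if h : t < m then (w ⟨t, h⟩ : ℕ) else 0

lemma W_of_lt {m n : ℕ} (w : Fin m → Fin n) {t : ℕ} (h : t < m) : W w t = (w ⟨t, h⟩ : ℕ) := by
  simp [W, h]

lemma occ_iff {m n : ℕ} (w : Fin m → Fin n) (j : ℕ) :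
    OccursAt p13245 w j ↔ j + 5 ≤ m ∧ W w j < W w (j + 2) ∧ W w (j + 2) < W w (j + 1) ∧
      W w (j + 1) < W w (j + 3) ∧ W w (j + 3) < W w (j + 4) := by
  constructor
  · rintro ⟨h, H⟩
    refine ⟨h, ?_, ?_, ?_, ?_⟩
    · have := (H 0 2).2 (by decide)
      rw [W_of_lt w (show j < m by omega), W_of_lt w (show j + 2 < m by omega)]
      exact this
    · have := (H 2 1).2 (by decide)
      rw [W_of_lt w (show j + 1 < m by omega), W_of_lt w (show j + 2 < m by omega)]
      exact this
    · have := (H 1 3).2 (by decide)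
      rw [W_of_lt w (show j + 1 < m by omega), W_of_lt w (show j + 3 < m by omega)]
      exact this
    · have := (H 3 4).2 (by decide)
      rw [W_of_lt w (show j + 3 < m by omega), W_of_lt w (show j + 4 < m by omega)]
      exact this
  · rintro ⟨h, h1, h2, h3, h4⟩
    refine ⟨h, ?_⟩
    have key : ∀ a : Fin 5, ((w ⟨j + a, lt_of_lt_of_le (Nat.add_lt_add_left a.isLt j) h⟩ : Fin n) : ℕ)
        = W w (j + a) := by
      intro a
      rw [W_of_lt w (lt_of_lt_of_le (Nat.add_lt_add_left a.isLt j) h)]
    intro a b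
    rw [Fin.lt_def, key a, key b]
    have e0 : p13245 0 = 0 := by decide
    have e1 : p13245 1 = 2 := by decide
    have e2 : p13245 2 = 1 := by decide
    have e3 : p13245 3 = 3 := by decide
    have e4 : p13245 4 = 4 := by decide
    fin_cases a <;> fin_cases b <;>
      simp [e0, e1, e2, e3, e4] <;> omega

/-- `w` has an occurrence of `13245` at each index in `I`. -/
def Good {m n : ℕ} (I : Finset ℕ) (w : Fin m → Fin n) : Prop := ∀ i ∈ I, OccursAt p13245 w i

/-! ### Clusters of positions -/

/-- The positions `u` and `u+1` are covered by a common window starting in `I`. -/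
def cov (I : Finset ℕ) (u : ℕ) : Prop := ∃ i ∈ I, i ≤ u ∧ u + 1 ≤ i + 4

open Classical in
/-- The index of the cluster of the position `t`. -/
noncomputable def cl (I : Finset ℕ) (t : ℕ) : ℕ := ((range t).filter fun u => ¬ cov I u).card

lemma cl_eq_iff (I : Finset ℕ) {s t : ℕ} (hst : s ≤ t) :
    cl I s = cl I t ↔ ∀ u, s ≤ u → u < t → cov I u := by
  classical
  have hsub : ((range s).filter fun u => ¬ cov I u) ⊆ ((range t).filter fun u => ¬ cov I u) := by
    intro u hu
    simp only [mem_filter, mem_range] at hu ⊢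
    exact ⟨lt_of_lt_of_le hu.1 hst, hu.2⟩
  constructor
  · intro h u hsu hut
    by_contra hc
    have heq := Finset.eq_of_subset_of_card_le hsub (le_of_eq (by unfold cl at h; exact h.symm))
    have : u ∈ ((range s).filter fun u => ¬ cov I u) := by
      rw [heq]; simp [hut, hc]
    simp at this
    omega
  · intro h
    unfold cl
    congr 1
    apply Finset.Subset.antisymm hsub
    intro u hu
    simp only [mem_filter, mem_range] at hu ⊢
    refine ⟨?_, hu.2⟩
    by_contra hc
    exact hu.2 (h u (by omega) hu.1)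

lemma cl_window {I : Finset ℕ} {i a : ℕ} (hi : i ∈ I) (ha : a ≤ 4) : cl I i = cl I (i + a) := by
  rw [cl_eq_iff I (by omega)]
  intro u h1 h2
  exact ⟨i, hi, h1, by omega⟩

section local_lemmas

variable {m n : ℕ} {I : Finset ℕ} {w : Fin m → Fin n}

lemma L1 (hw : Good I w) {u : ℕ} (h : cov I u) : W w u ≠ W w (u + 1) := by
  obtain ⟨i, hi, h1, h2⟩ := h
  obtain ⟨h0, a1, a2, a3, a4⟩ := (occ_iff w i).1 (hw i hi)
  obtain ⟨d, rfl⟩ : ∃ d, u = i + d := ⟨u - i, by omega⟩
  have hd : d ≤ 3 := by omega
  interval_cases d <;> simp only [Nat.add_assoc, Nat.reduceAdd, Nat.add_zero] at * <;> omega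

lemma L2 (hw : Good I w) {u : ℕ} (h : cov I u) (h' : cov I (u + 1)) :
    W w u < W w (u + 2) := by
  obtain ⟨i, hi, h1, h2⟩ := h
  obtain ⟨j, hj, h3, h4⟩ := h'
  obtain ⟨h0, a1, a2, a3, a4⟩ := (occ_iff w i).1 (hw i hi)
  obtain ⟨h0', b1, b2, b3, b4⟩ := (occ_iff w j).1 (hw j hj)
  obtain ⟨d, rfl⟩ : ∃ d, u = i + d := ⟨u - i, by omega⟩
  have hd : d ≤ 3 := by omega
  obtain ⟨e, he⟩ : ∃ e, i + d + 1 = j + e := ⟨i + d + 1 - j, by omega⟩
  have he' : e ≤ 3 := by omega
  interval_cases d
  · simp only [Nat.add_assoc, Nat.reduceAdd, Nat.add_zero] at *; omega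
  · simp only [Nat.add_assoc, Nat.reduceAdd, Nat.add_zero] at *; omega
  · simp only [Nat.add_assoc, Nat.reduceAdd, Nat.add_zero] at *; omega
  · interval_cases e
    · obtain rfl : j = i + 4 := by omega
      simp only [Nat.add_assoc, Nat.reduceAdd, Nat.add_zero] at *; omega
    · obtain rfl : j = i + 3 := by omega
      simp only [Nat.add_assoc, Nat.reduceAdd, Nat.add_zero] at *; omega
    · obtain rfl : j = i + 2 := by omega
      simp only [Nat.add_assoc, Nat.reduceAdd, Nat.add_zero] at *; omega
    · obtain rfl : j = i + 1 := by omega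
      simp only [Nat.add_assoc, Nat.reduceAdd, Nat.add_zero] at *; omega

lemma L3 (hw : Good I w) {u : ℕ} (h : cov I u) (h' : cov I (u + 1)) (h'' : cov I (u + 2)) :
    W w u < W w (u + 3) := by
  have hL2 := L2 hw h h'
  obtain ⟨i, hi, h1, h2⟩ := h
  obtain ⟨j, hj, h3, h4⟩ := h''
  obtain ⟨h0, a1, a2, a3, a4⟩ := (occ_iff w i).1 (hw i hi)
  obtain ⟨h0', b1, b2, b3, b4⟩ := (occ_iff w j).1 (hw j hj)
  obtain ⟨d, rfl⟩ : ∃ d, u = i + d := ⟨u - i, by omega⟩
  have hd : d ≤ 3 := by omega
  obtain ⟨e, he⟩ : ∃ e, i + d + 2 = j + e := ⟨i + d + 2 - j, by omega⟩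
  have he' : e ≤ 3 := by omega
  interval_cases d
  · simp only [Nat.add_assoc, Nat.reduceAdd, Nat.add_zero] at *; omega
  · simp only [Nat.add_assoc, Nat.reduceAdd, Nat.add_zero] at *; omega
  · interval_cases e
    · obtain rfl : j = i + 4 := by omega
      simp only [Nat.add_assoc, Nat.reduceAdd, Nat.add_zero] at *; omega
    · obtain rfl : j = i + 3 := by omega
      simp only [Nat.add_assoc, Nat.reduceAdd, Nat.add_zero] at *; omega
    · obtain rfl : j = i + 2 := by omega
      simp only [Nat.add_assoc, Nat.reduceAdd, Nat.add_zero] at *; omega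
    · obtain rfl : j = i + 1 := by omega
      simp only [Nat.add_assoc, Nat.reduceAdd, Nat.add_zero] at *; omega
  · interval_cases e
    · obtain rfl : j = i + 5 := by omega
      simp only [Nat.add_assoc, Nat.reduceAdd, Nat.add_zero] at *; omega
    · obtain rfl : j = i + 4 := by omega
      simp only [Nat.add_assoc, Nat.reduceAdd, Nat.add_zero] at *; omega
    · obtain rfl : j = i + 3 := by omega
      simp only [Nat.add_assoc, Nat.reduceAdd, Nat.add_zero] at *; omega
    · obtain rfl : j = i + 2 := by omega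
      simp only [Nat.add_assoc, Nat.reduceAdd, Nat.add_zero] at *; omega

lemma lt_of_cov (hw : Good I w) : ∀ (d s : ℕ), 2 ≤ d →
    (∀ u, s ≤ u → u < s + d → cov I u) → W w s < W w (s + d) := by
  intro d
  induction d using Nat.strong_induction_on with
  | _ d ih =>
    intro s hd h
    rcases Nat.lt_or_ge d 4 with h4 | h4
    · interval_cases d
      · exact L2 hw (h s (by omega) (by omega)) (h (s + 1) (by omega) (by omega))
      · exact L3 hw (h s (by omega) (by omega)) (h (s + 1) (by omega) (by omega))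
          (h (s + 2) (by omega) (by omega))
    · have e1 := ih 2 (by omega) s (le_refl _) (fun u h1 h2 => h u h1 (by omega))
      have e2 := ih (d - 2) (by omega) (s + 2) (by omega)
        (fun u h1 h2 => h u (by omega) (by omega))
      have e3 : s + 2 + (d - 2) = s + d := by omega
      rw [e3] at e2
      exact lt_trans e1 e2

lemma W_ne_of_lt (hw : Good I w) {s t : ℕ} (hst : s < t) (h : cl I s = cl I t) :
    W w s ≠ W w t := by
  have hc := (cl_eq_iff I hst.le).1 h
  rcases Nat.lt_or_ge t (s + 2) with h2 | h2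
  · obtain rfl : t = s + 1 := by omega
    exact L1 hw (hc s (le_refl _) (by omega))
  · obtain ⟨d, rfl⟩ : ∃ d, t = s + d := ⟨t - s, by omega⟩
    exact (lt_of_cov hw d s (by omega) (fun u h1 h3 => hc u h1 h3)).ne

/-- All letters in a cluster are distinct. -/
lemma inj_on_cluster (hw : Good I w) {s t : Fin m} (h : cl I s = cl I t) (hwst : w s = w t) :
    s = t := by
  have e1 : W w s = (w s : ℕ) := W_of_lt w s.isLt
  have e2 : W w t = (w t : ℕ) := W_of_lt w t.isLt
  rcases lt_trichotomy (s : ℕ) (t : ℕ) with h1 | h1 | h1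
  · exact absurd (by rw [e1, e2, hwst]) (W_ne_of_lt hw h1 h)
  · exact Fin.ext h1
  · exact absurd (by rw [e1, e2, hwst]) (W_ne_of_lt hw h1 h.symm)

end local_lemmas

/-! ### Exchanging two adjacent letters -/

section swap

variable {m n : ℕ}

/-- The cluster of the position `t` contains both letters `x` and `y`. -/
def both (I : Finset ℕ) (x y : Fin n) (w : Fin m → Fin n) (t : Fin m) : Prop :=
  ∃ t1 t2 : Fin m, cl I t1 = cl I t ∧ cl I t2 = cl I t ∧ w t1 = x ∧ w t2 = y

open Classical in
/-- Exchange `x` and `y` in all clusters that do not contain both of them. -/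
noncomputable def phi (I : Finset ℕ) (x y : Fin n) (w : Fin m → Fin n) : Fin m → Fin n :=
  fun t => if both I x y w t then w t else Equiv.swap x y (w t)

variable {I : Finset ℕ} {x y : Fin n} {w : Fin m → Fin n}

lemma both_congr {t t' : Fin m} (h : cl I t = cl I t') : both I x y w t ↔ both I x y w t' := by
  unfold both; rw [h]

lemma phi_of_both {t : Fin m} (h : both I x y w t) : phi I x y w t = w t := by
  simp [phi, h]

lemma phi_of_not_both {t : Fin m} (h : ¬ both I x y w t) :
    phi I x y w t = Equiv.swap x y (w t) := by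
  simp [phi, h]

lemma both_phi (t : Fin m) : both I x y (phi I x y w) t ↔ both I x y w t := by
  constructor
  · rintro ⟨t1, t2, h1, h2, h3, h4⟩
    by_contra hb
    have hb1 : ¬ both I x y w t1 := by rwa [both_congr h1]
    have hb2 : ¬ both I x y w t2 := by rwa [both_congr h2]
    rw [phi_of_not_both hb1] at h3
    rw [phi_of_not_both hb2] at h4
    have e1 : w t1 = y := by
      have := congrArg (Equiv.swap x y) h3
      simpa using this
    have e2 : w t2 = x := by
      have := congrArg (Equiv.swap x y) h4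
      simpa using this
    exact hb ⟨t2, t1, h2, h1, e2, e1⟩
  · rintro ⟨t1, t2, h1, h2, h3, h4⟩
    have hb : both I x y w t := ⟨t1, t2, h1, h2, h3, h4⟩
    refine ⟨t1, t2, h1, h2, ?_, ?_⟩
    · rw [phi_of_both ((both_congr h1).2 hb)]; exact h3
    · rw [phi_of_both ((both_congr h2).2 hb)]; exact h4

lemma phi_phi : phi I x y (phi I x y w) = w := by
  funext t
  by_cases hb : both I x y w t
  · rw [phi_of_both ((both_phi t).2 hb), phi_of_both hb]
  · rw [phi_of_not_both (fun h => hb ((both_phi t).1 h)), phi_of_not_both hb]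
    simp

lemma swap_val (hxy : (y : ℕ) = x + 1) (z : Fin n) :
    ((Equiv.swap x y z : Fin n) : ℕ) =
      if (z : ℕ) = x then (x : ℕ) + 1 else if (z : ℕ) = x + 1 then (x : ℕ) else z := by
  by_cases h1 : z = x
  · subst h1; simp [hxy]
  · have h1' : (z : ℕ) ≠ x := fun h => h1 (Fin.ext h)
    by_cases h2 : z = y
    · subst h2; simp [hxy]
    · have h2' : (z : ℕ) ≠ x + 1 := fun h => h2 (Fin.ext (by rw [h, hxy]))
      rw [Equiv.swap_apply_of_ne_of_ne h1 h2]; simp [h1', h2']

lemma good_phi (hxy : (y : ℕ) = x + 1) (hw : Good I w) : Good I (phi I x y w) := by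
  intro i hi
  have hocc := (occ_iff w i).1 (hw i hi)
  obtain ⟨h0, a1, a2, a3, a4⟩ := hocc
  rw [occ_iff]
  have hcl : ∀ a, (ha : a ≤ 4) → cl I i = cl I (i + a) := fun a ha => cl_window hi ha
  by_cases hb : both I x y w ⟨i, by omega⟩
  · have key : ∀ a, a ≤ 4 → W (phi I x y w) (i + a) = W w (i + a) := by
      intro a ha
      have hlt : i + a < m := by omega
      rw [W_of_lt _ hlt, W_of_lt _ hlt]
      congr 1
      exact phi_of_both ((both_congr (hcl a ha)).1 hb)
    have k0 := key 0 (by omega)
    have k1 := key 1 (by omega)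
    have k2 := key 2 (by omega)
    have k3 := key 3 (by omega)
    have k4 := key 4 (by omega)
    rw [Nat.add_zero] at k0
    rw [k0, k1, k2, k3, k4]
    exact ⟨h0, a1, a2, a3, a4⟩
  · have key : ∀ a, a ≤ 4 → W (phi I x y w) (i + a) =
        if W w (i + a) = x then (x : ℕ) + 1 else if W w (i + a) = x + 1 then (x : ℕ)
          else W w (i + a) := by
      intro a ha
      have hlt : i + a < m := by omega
      rw [W_of_lt _ hlt, W_of_lt _ hlt, phi_of_not_both, swap_val hxy]
      exact fun h => hb ((both_congr (hcl a ha)).2 h)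
    have nb : ∀ a b, a ≤ 4 → b ≤ 4 → ¬ (W w (i + a) = x ∧ W w (i + b) = x + 1) := by
      rintro a b ha hb' ⟨e1, e2⟩
      have hlta : i + a < m := by omega
      have hltb : i + b < m := by omega
      rw [W_of_lt _ hlta] at e1
      rw [W_of_lt _ hltb] at e2
      exact hb ⟨⟨i + a, hlta⟩, ⟨i + b, hltb⟩, (hcl a ha).symm, (hcl b hb').symm,
        Fin.ext e1, Fin.ext (by rw [e2, hxy])⟩
    have step : ∀ a b, a ≤ 4 → b ≤ 4 → W w (i + a) < W w (i + b) →
        W (phi I x y w) (i + a) < W (phi I x y w) (i + b) := by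
      intro a b ha hb' hlt
      rw [key a ha, key b hb']
      have := nb a b ha hb'
      split_ifs <;> omega
    have s1 := step 0 2 (by omega) (by omega) a1
    have s2 := step 2 1 (by omega) (by omega) a2
    have s3 := step 1 3 (by omega) (by omega) a3
    have s4 := step 3 4 (by omega) (by omega) a4
    exact ⟨h0, s1, s2, s3, s4⟩

lemma card_both_le (hw : Good I w) (a b : Fin n)
    (hex : ∀ t : Fin m, both I x y w t → ∃ t2 : Fin m, cl I t2 = cl I t ∧ w t2 = b) :
    Set.ncard {t : Fin m | both I x y w t ∧ w t = a} ≤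
      Set.ncard {t : Fin m | both I x y w t ∧ w t = b} := by
  classical
  choose! f hf1 hf2 using hex
  apply Set.ncard_le_ncard_of_injOn f
  · rintro t ⟨h1, h2⟩
    exact ⟨(both_congr (hf1 t h1)).2 h1, hf2 t h1⟩
  · rintro t ⟨h1, h2⟩ t' ⟨h1', h2'⟩ he
    apply inj_on_cluster hw _ (h2.trans h2'.symm)
    rw [← hf1 t h1, he, hf1 t' h1']

lemma card_both (hw : Good I w) :
    Set.ncard {t : Fin m | both I x y w t ∧ w t = x} =
      Set.ncard {t : Fin m | both I x y w t ∧ w t = y} := by
  apply le_antisymm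
  · exact card_both_le hw x y (fun t ⟨t1, t2, h1, h2, h3, h4⟩ => ⟨t2, h2, h4⟩)
  · exact card_both_le hw y x (fun t ⟨t1, t2, h1, h2, h3, h4⟩ => ⟨t1, h1, h3⟩)

lemma ncard_split (P Q : Fin m → Prop) :
    Set.ncard {t | Q t} = Set.ncard {t | P t ∧ Q t} + Set.ncard {t | ¬ P t ∧ Q t} := by
  rw [← Set.ncard_union_eq]
  · congr 1
    ext t
    simp only [Set.mem_ofPred_eq, Set.mem_union]
    tauto
  · rw [Set.disjoint_left]
    rintro t ⟨h1, -⟩ ⟨h2, -⟩
    exact h2 h1

lemma content_phi (hw : Good I w) (z : Fin n) :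
    Set.ncard {t | phi I x y w t = z} = Set.ncard {t | w t = Equiv.swap x y z} := by
  rw [ncard_split (both I x y w) (fun t => phi I x y w t = z),
    ncard_split (both I x y w) (fun t => w t = Equiv.swap x y z)]
  have e2 : {t | ¬ both I x y w t ∧ phi I x y w t = z} =
      {t | ¬ both I x y w t ∧ w t = Equiv.swap x y z} := by
    ext t
    simp only [Set.mem_ofPred_eq]
    refine and_congr_right fun hb => ?_
    rw [phi_of_not_both hb, Equiv.swap_apply_eq_iff]
  have e1 : {t | both I x y w t ∧ phi I x y w t = z} = {t | both I x y w t ∧ w t = z} := by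
    ext t
    simp only [Set.mem_ofPred_eq]
    refine and_congr_right fun hb => ?_
    rw [phi_of_both hb]
  rw [e1, e2]
  congr 1
  by_cases h1 : z = x
  · subst h1; rw [Equiv.swap_apply_left]; exact card_both hw
  · by_cases h2 : z = y
    · subst h2; rw [Equiv.swap_apply_right]; exact (card_both hw).symm
    · rw [Equiv.swap_apply_of_ne_of_ne h1 h2]

end swap

/-! ### Counting -/

section count

variable {m n : ℕ}

/-- The word `w` has content `k`. -/
def Content (k : Fin n → ℕ) (w : Fin m → Fin n) : Prop := ∀ i : Fin n, Set.ncard {t | w t = i} = k i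

open Classical in
/-- Words with content `k` and occurrences at each index in `I`. -/
noncomputable def G (m : ℕ) (k : Fin n → ℕ) (I : Finset ℕ) : Finset (Fin m → Fin n) :=
  univ.filter fun w => Content k w ∧ Good I w

lemma G_card_swap (k : Fin n → ℕ) (I : Finset ℕ) {x y : Fin n} (hxy : (y : ℕ) = x + 1) :
    (G m k I).card = (G m (fun i => k (Equiv.swap x y i)) I).card := by
  classical
  apply Finset.card_bij' (fun w _ => phi I x y w) (fun w _ => phi I x y w)
  · intro w hw
    simp only [G, mem_filter, mem_univ, true_and] at hw ⊢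
    refine ⟨fun i => ?_, good_phi hxy hw.2⟩
    rw [content_phi hw.2, hw.1]
  · intro w hw
    simp only [G, mem_filter, mem_univ, true_and] at hw ⊢
    refine ⟨fun i => ?_, good_phi hxy hw.2⟩
    rw [content_phi hw.2, hw.1]
    simp
  · intro w _; exact phi_phi
  · intro w _; exact phi_phi

/-- For each fixed set of marked windows, the number of words is symmetric in the content. -/
lemma G_card_perm (k : Fin n → ℕ) (I : Finset ℕ) (σ : Equiv.Perm (Fin n)) :
    (G m k I).card = (G m (fun i => k (σ i)) I).card := by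
  rcases n with _ | n
  · congr 2
    funext i; exact i.elim0
  · have hmem : σ ∈ Submonoid.closure
        (Set.range fun i : Fin n => Equiv.swap i.castSucc i.succ) := by
      rw [Equiv.Perm.mclosure_swap_castSucc_succ]; trivial
    induction hmem using Submonoid.closure_induction generalizing k with
    | mem τ hτ =>
      obtain ⟨i, rfl⟩ := hτ
      exact G_card_swap k I (by simp)
    | one => rfl
    | mul τ ρ _ _ h1 h2 =>
      rw [h1 k, h2 (fun i => k (τ i))]
      rfl

open Classical in
/-- The set of occurrences as a finset. -/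
noncomputable def occSet (w : Fin m → Fin n) : Finset ℕ :=
  (range (m + 1)).filter fun j => OccursAt p13245 w j

lemma occ_eq (w : Fin m → Fin n) : occ p13245 w = (occSet w).card := by
  classical
  rw [occ, ← Set.ncard_coe_finset]
  congr 1
  ext j
  simp only [occSet, Set.mem_ofPred_eq, coe_filter, mem_range]
  constructor
  · intro h
    obtain ⟨h1, -⟩ := id h
    exact ⟨by omega, h⟩
  · exact fun h => h.2

lemma good_iff (I : Finset ℕ) (w : Fin m → Fin n) : Good I w ↔ I ⊆ occSet w := by
  classical
  constructor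
  · intro h i hi
    have := h i hi
    obtain ⟨h1, -⟩ := id this
    simp only [occSet, mem_filter, mem_range]
    exact ⟨by omega, this⟩
  · intro h i hi
    have := h hi
    simp only [occSet, mem_filter, mem_range] at this
    exact this.2

open Polynomial in
lemma poly_eq (k : Fin n → ℕ) :
    (∑ w ∈ G m k ∅, (X : ℤ[X]) ^ (occ p13245 w)) =
      ∑ I ∈ (range (m + 1)).powerset, (X - 1) ^ I.card * ((G m k I).card : ℤ[X]) := by
  classical
  have h1 : ∀ w : Fin m → Fin n, (X : ℤ[X]) ^ (occ p13245 w) =
      ∑ I ∈ (range (m + 1)).powerset, if Good I w then (X - 1 : ℤ[X]) ^ I.card else 0 := by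
    intro w
    have h2 := Finset.sum_pow_mul_eq_add_pow (X - 1 : ℤ[X]) 1 (occSet w)
    rw [sub_add_cancel] at h2
    rw [occ_eq, ← h2, ← Finset.sum_filter]
    apply Finset.sum_congr
    · ext I
      simp only [mem_powerset, mem_filter, good_iff]
      constructor
      · intro h
        exact ⟨h.trans (Finset.filter_subset _ _), h⟩
      · exact fun h => h.2
    · intro I _
      simp
  rw [Finset.sum_congr rfl (fun w _ => h1 w), Finset.sum_comm]
  apply Finset.sum_congr rfl
  intro I _
  rw [← Finset.sum_filter, Finset.sum_const, nsmul_eq_mul, mul_comm]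
  congr 3
  ext w
  simp only [G, mem_filter, mem_univ, true_and]
  constructor
  · rintro ⟨⟨h3, -⟩, h4⟩; exact ⟨h3, h4⟩
  · rintro ⟨h3, h4⟩
    exact ⟨⟨h3, fun i hi => absurd hi (Finset.notMem_empty i)⟩, h4⟩

open Polynomial in
lemma coeff_eq (k : Fin n → ℕ) (s : ℕ) :
    (∑ w ∈ G m k ∅, (X : ℤ[X]) ^ (occ p13245 w)).coeff s =
      (Set.ncard {w : Fin m → Fin n | Content k w ∧ occ p13245 w = s} : ℤ) := by
  classical
  rw [Polynomial.finsetSum_coeff]
  simp only [Polynomial.coeff_X_pow]
  rw [← Finset.sum_filter, Finset.sum_const, nsmul_eq_mul, mul_one]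
  congr 1
  rw [← Set.ncard_coe_finset]
  congr 1
  ext w
  simp only [G, coe_filter, mem_filter, mem_univ, true_and, Set.mem_ofPred_eq]
  constructor
  · rintro ⟨⟨h1, -⟩, h2⟩; exact ⟨h1, h2.symm⟩
  · rintro ⟨h1, h2⟩
    exact ⟨⟨h1, fun i hi => absurd hi (Finset.notMem_empty i)⟩, h2.symm⟩

lemma ncard_eq (k : Fin n → ℕ) (σ : Equiv.Perm (Fin n)) (s : ℕ) :
    Set.ncard {w : Fin m → Fin n | Content k w ∧ occ p13245 w = s} =
      Set.ncard {w : Fin m → Fin n | Content (fun i => k (σ i)) w ∧ occ p13245 w = s} := by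
  have h1 := coeff_eq (m := m) k s
  have h2 := coeff_eq (m := m) (fun i => k (σ i)) s
  rw [poly_eq] at h1 h2
  have h3 : ∀ I : Finset ℕ, (G m k I).card = (G m (fun i => k (σ i)) I).card :=
    fun I => G_card_perm k I σ
  simp only [h3] at h1
  rw [h1] at h2
  exact_mod_cast h2

end count

theorem stable_p13245 : Stable p13245 := by
  intro n k σ s
  have hsum : ∑ i, k (σ i) = ∑ i, k i := Equiv.sum_comp σ k
  unfold wordsWith
  rw [hsum]
  exact ncard_eq k σ s

theorem not_monotone_p13245 : ¬ (Monotone p13245 ∨ Antitone p13245) := by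
  rintro (h | h)
  · have := h (show (1 : Fin 5) ≤ 2 by decide)
    revert this; decide
  · have := h (show (0 : Fin 5) ≤ 1 by decide)
    revert this; decide

end Pool.Agent.MP_5514a7_co
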